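import Pool.Agent.helper90.KS.Spec

/-!
# MP_26dbae_co: module CORE (helper98), assembly of the main estimate
-/

set_option autoImplicit false

open scoped BigOperators

namespace Pool.Agent.KS

open Pool.Agent.helper23.TH

noncomputable section

open Classical

theorem CORE_co_symm {V X : Type} {p q : V → X} {u w : V} (h : Co p q u w) : Co p q w u :=
  h.imp Eq.symm Eq.symm

theorem CORE_co_swap {V X : Type} {p q : V → X} {u w : V} (h : Co p q u w) : Co q p u w :=
  h.symm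

theorem CORE_cd_comm {V : Type} [Fintype V] (A : V → V → Prop) (v w : V) : cd A v w = cd A w v := by
  unfold cd
  congr 1
  ext m
  simp only [Finset.mem_filter, Finset.mem_univ, true_and]
  exact and_comm

theorem CORE_bp_swap {V X : Type} {A : V → V → Prop} {p q : V → X} {v v' u u' : V}
    (h : Bp A p q v v' u u') : Bp A p q v' v u u' ∨ Bp A p q v' v u' u := by
  rcases h with h | h | h | h | h | ⟨m, m', h1, h2, h3, h4, h5⟩
  · exact Or.inl (Or.inl h)
  · exact Or.inl (Or.inr (Or.inr (Or.inl h)))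
  · exact Or.inl (Or.inr (Or.inl h))
  · exact Or.inl (Or.inr (Or.inr (Or.inr (Or.inr (Or.inl h)))))
  · exact Or.inl (Or.inr (Or.inr (Or.inr (Or.inl h))))
  · exact Or.inr (Or.inr (Or.inr (Or.inr (Or.inr (Or.inr
      ⟨m', m, h3, h4, h1, h2, CORE_co_symm h5⟩)))))

theorem CORE_bs_swap {V X : Type} [Fintype V] {A : V → V → Prop} {p q : V → X} {C : ℕ}
    {v v' u : V} (h : Bs A p q C v v' u) : Bs A p q C v' v u := by
  rcases h with ⟨h1, m, h2, h3, h4⟩ | h | h
  · exact Or.inl ⟨by rwa [CORE_cd_comm], m, h3, h2, h4⟩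
  · exact Or.inr (Or.inr h)
  · exact Or.inr (Or.inl h)

theorem CORE_gd_swap {V X : Type} [Fintype V] {A : V → V → Prop} {p q : V → X} {C s : ℕ}
    {v v' : V} {u : Fin s → V} (h : Gd A p q C v v' u) : Gd A p q C v' v u := by
  refine ⟨fun i i' hi hb => ?_, fun i hb => h.2 i (CORE_bs_swap hb)⟩
  rcases CORE_bp_swap hb with hb | hb
  · exact h.1 i i' hi hb
  · exact h.1 i' i (Ne.symm hi) hb

theorem CORE_pg_swap {V X : Type} {A : V → V → Prop} {p q : V → X} (h : PG A p q) :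
    PG A q p where
  symm := h.symm
  ne1 := h.ne2
  ne2 := h.ne1
  inj1 := h.inj2
  inj2 := h.inj1
  ext := fun u u' h1 h2 => h.ext u u' h2 h1

theorem CORE_emb_swap {V X : Type} {A : V → V → Prop} {p q : V → X} {s t : ℕ}
    (h : Emb A q p s t) : Emb A p q s t := by
  obtain ⟨u, v, m, h1, h2, h3, h4, h5, h6, h7⟩ := h
  exact ⟨u, v, m, h1, fun i i' hi hc => h2 i i' hi (CORE_co_swap hc),
    fun j j' hj hc => h3 j j' hj (CORE_co_swap hc), fun i j hc => h4 i j (CORE_co_swap hc),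
    fun i i' j hc => h5 i i' j (CORE_co_swap hc), fun i j j' hc => h6 i j j' (CORE_co_swap hc),
    fun i i' j j' hi hc => h7 i i' j j' hi (CORE_co_swap hc)⟩

/-- number of tuples in a set -/
theorem CORE_pi {V : Type} [Fintype V] (s : ℕ) (S : Finset V) :
    (Finset.univ.filter fun u : Fin s → V => ∀ i, u i ∈ S).card = S.card ^ s := by
  have h : (Finset.univ.filter fun u : Fin s → V => ∀ i, u i ∈ S) =
      Fintype.piFinset fun _ : Fin s => S := by
    ext u
    simp only [Finset.mem_filter, Finset.mem_univ, true_and, Fintype.mem_piFinset]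
  rw [h, Fintype.card_piFinset_const]

/-- double counting -/
theorem CORE_dc {α β : Type} [Fintype α] [Fintype β] (Q : α → β → Prop)
    [∀ a b, Decidable (Q a b)] :
    ∑ a, (Finset.univ.filter fun b => Q a b).card =
      ∑ b, (Finset.univ.filter fun a => Q a b).card := by
  simp only [Finset.card_filter]
  exact Finset.sum_comm

theorem CORE (hCL : CL_stmt) (hCB : CB_stmt) (hBE : BE_stmt) (hBA : BA_stmt) (hSB : SB_stmt)
    (hNL : NL_stmt) (hTU : TU_stmt) : CORE_stmt := by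
  intro s t hs ht
  obtain ⟨R, hR2, hR⟩ := hCL s t (by omega) ht
  obtain ⟨E, hE⟩ := hCB s (C0 s t)
  obtain ⟨C1, hC1⟩ := hBE s t (by omega)
  obtain ⟨B1, hB1⟩ := hBA s t C1 (by omega) (by omega)
  refine ⟨2 * R * (1 + 2 * B1) + (2 * R * E + 1) ^ (s - 1), ?_⟩
  intro V X _ A p q Δ hPG hdeg hΔ hEmb
  set C := C0 s t with hC
  have hPG' := CORE_pg_swap hPG
  have hEmb' : ¬ Emb A q p s t := fun h => hEmb (CORE_emb_swap h)
  have hS1p := hB1 V X A p q Δ hPG hdeg hΔ hEmb (fun h => hEmb (hC1 V X A p q hPG h))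
  have hS1q := hB1 V X A q p Δ hPG' hdeg hΔ hEmb' (fun h => hEmb' (hC1 V X A q p hPG' h))
  obtain ⟨-, -, -, -, hL2, hLsymm, -⟩ := hNL V X A p q Δ C hPG hdeg
  have hSBv := hSB V (Ls A C) s Δ (2 * R * E + 1) hs hΔ (by omega) (by
    intro v u hu
    simp only [Ls, Finset.mem_filter, Finset.mem_univ, true_and] at hu ⊢
    exact (hLsymm v u hu).1) hL2
  have hXXdef : ∑ v, ∑ v', (Ls A C v ∩ Ls A C v').card ^ s = XX A C s := rfl
  rw [hXXdef] at hSBv
  -- the sets of centres
  have hVu : ∀ u : Fin s → V,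
      (Finset.univ.filter fun v => ∀ i, Lg A C v (u i)).card ^ 2 ≤
        R * (Finset.univ.filter fun x : V × V => ((∀ i, Lg A C x.1 (u i)) ∧ ∀ i, Lg A C x.2 (u i)) ∧
          (x.1 = x.2 ∨ ¬ (¬ Co p q x.1 x.2 ∧ Gd A p q C x.1 x.2 u))).card := by
    intro u
    have h1 := hTU {v : V // ∀ i, Lg A C v (u i)}
      (fun x y => ¬ Co p q x.1 y.1 ∧ Gd A p q C x.1 y.1 u)
      (fun x y h => ⟨fun hc => h.1 (CORE_co_symm hc), CORE_gd_swap h.2⟩) R hR2 (by
        rintro ⟨f, -, hf⟩
        exact hEmb (hR V X A p q hPG ⟨u, fun a => (f a).1, fun a i => (f a).2 i,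
          fun a b hab => hf a b hab⟩))
    rw [Fintype.card_subtype] at h1
    refine h1.trans (Nat.mul_le_mul_left R ?_)
    refine Finset.card_le_card_of_injOn (fun x => (x.1.1, x.2.1)) ?_ ?_
    · intro x hx
      simp only [Finset.coe_filter, Finset.mem_univ, true_and, Set.mem_ofPred_eq] at hx ⊢
      refine ⟨⟨x.1.2, x.2.2⟩, ?_⟩
      rcases hx with hx | hx
      · exact Or.inl (congrArg Subtype.val hx)
      · exact Or.inr hx
    · intro x _ y _ hxy
      exact Prod.ext (Subtype.ext (congrArg Prod.fst hxy)) (Subtype.ext (congrArg Prod.snd hxy))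
  have hmem : ∀ (x : V × V) (u : Fin s → V), ((∀ i, Lg A C x.1 (u i)) ∧ ∀ i, Lg A C x.2 (u i)) ↔
      ∀ i, u i ∈ Ls A C x.1 ∩ Ls A C x.2 := by
    intro x u
    simp only [Ls, Finset.mem_inter, Finset.mem_filter, Finset.mem_univ, true_and]
    exact ⟨fun h i => ⟨h.1 i, h.2 i⟩, fun h => ⟨fun i => (h i).1, fun i => (h i).2⟩⟩
  -- the left sides
  have hleft : ∑ u : Fin s → V, (Finset.univ.filter fun v => ∀ i, Lg A C v (u i)).card ^ 2 =
      XX A C s := by
    have e1 : ∀ u : Fin s → V, (Finset.univ.filter fun v => ∀ i, Lg A C v (u i)).card ^ 2 =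
        (Finset.univ.filter fun x : V × V =>
          (∀ i, Lg A C x.1 (u i)) ∧ ∀ i, Lg A C x.2 (u i)).card := by
      intro u
      rw [sq, ← Finset.card_product]
      congr 1
      ext x
      simp only [Finset.mem_product, Finset.mem_filter, Finset.mem_univ, true_and]
    rw [Finset.sum_congr rfl fun u _ => e1 u, CORE_dc, ← hXXdef, Fintype.sum_prod_type]
    refine Finset.sum_congr rfl fun v _ => Finset.sum_congr rfl fun v' _ => ?_
    rw [← CORE_pi s (Ls A C v ∩ Ls A C v')]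
    congr 1
    ext u
    simp only [Finset.mem_filter, Finset.mem_univ, true_and]
    exact hmem (v, v') u
  -- the right sides
  have hright : ∀ x : V × V, (Finset.univ.filter fun u : Fin s → V =>
      ((∀ i, Lg A C x.1 (u i)) ∧ ∀ i, Lg A C x.2 (u i)) ∧
        (x.1 = x.2 ∨ ¬ (¬ Co p q x.1 x.2 ∧ Gd A p q C x.1 x.2 u))).card ≤
      (if x.1 = x.2 then (Ls A C x.1 ∩ Ls A C x.2).card ^ s else 0) +
      (if x.2 ≠ x.1 ∧ p x.2 = p x.1 then (Ls A C x.1 ∩ Ls A C x.2).card ^ s else 0) +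
      (if x.2 ≠ x.1 ∧ q x.2 = q x.1 then (Ls A C x.1 ∩ Ls A C x.2).card ^ s else 0) +
      E * (Δ * (Ls A C x.1 ∩ Ls A C x.2).card ^ (s - 1)) := by
    intro x
    have hall : (Finset.univ.filter fun u : Fin s → V =>
      ((∀ i, Lg A C x.1 (u i)) ∧ ∀ i, Lg A C x.2 (u i)) ∧
        (x.1 = x.2 ∨ ¬ (¬ Co p q x.1 x.2 ∧ Gd A p q C x.1 x.2 u))).card ≤
        (Ls A C x.1 ∩ Ls A C x.2).card ^ s := by
      rw [← CORE_pi s (Ls A C x.1 ∩ Ls A C x.2)]
      refine Finset.card_le_card fun u hu => ?_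
      simp only [Finset.mem_filter, Finset.mem_univ, true_and] at hu ⊢
      exact (hmem x u).mp hu.1
    by_cases h1 : x.1 = x.2
    · rw [if_pos h1]
      omega
    by_cases h2 : p x.2 = p x.1
    · rw [if_pos (⟨Ne.symm h1, h2⟩ : x.2 ≠ x.1 ∧ p x.2 = p x.1)]
      omega
    by_cases h3 : q x.2 = q x.1
    · rw [if_pos (⟨Ne.symm h1, h3⟩ : x.2 ≠ x.1 ∧ q x.2 = q x.1)]
      omega
    have h4 := hE V X A p q Δ hPG hdeg x.1 x.2
    have h5 : (Finset.univ.filter fun u : Fin s → V =>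
      ((∀ i, Lg A C x.1 (u i)) ∧ ∀ i, Lg A C x.2 (u i)) ∧
        (x.1 = x.2 ∨ ¬ (¬ Co p q x.1 x.2 ∧ Gd A p q C x.1 x.2 u))).card ≤
        (Finset.univ.filter fun u : Fin s → V => (∀ i, u i ∈ Ls A C x.1 ∩ Ls A C x.2) ∧
          ¬ Gd A p q C x.1 x.2 u).card := by
      refine Finset.card_le_card fun u hu => ?_
      simp only [Finset.mem_filter, Finset.mem_univ, true_and] at hu ⊢
      refine ⟨(hmem x u).mp hu.1, fun hg => ?_⟩
      rcases hu.2 with h6 | h6
      · exact h1 h6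
      · refine h6 ⟨fun hc => ?_, hg⟩
        rcases hc with hc | hc
        · exact h2 hc.symm
        · exact h3 hc.symm
    rw [mul_assoc] at h4
    omega
  have hsum : XX A C s ≤ R * (Fintype.card V * Δ ^ (2 * s) + S1 A p C s + S1 A q C s +
      E * (Δ * ∑ v, ∑ v', (Ls A C v ∩ Ls A C v').card ^ (s - 1))) := by
    calc XX A C s = ∑ u : Fin s → V,
          (Finset.univ.filter fun v => ∀ i, Lg A C v (u i)).card ^ 2 := hleft.symm
      _ ≤ ∑ u : Fin s → V, R * (Finset.univ.filter fun x : V × V =>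
          ((∀ i, Lg A C x.1 (u i)) ∧ ∀ i, Lg A C x.2 (u i)) ∧
          (x.1 = x.2 ∨ ¬ (¬ Co p q x.1 x.2 ∧ Gd A p q C x.1 x.2 u))).card :=
        Finset.sum_le_sum fun u _ => hVu u
      _ = R * ∑ x : V × V, (Finset.univ.filter fun u : Fin s → V =>
          ((∀ i, Lg A C x.1 (u i)) ∧ ∀ i, Lg A C x.2 (u i)) ∧
          (x.1 = x.2 ∨ ¬ (¬ Co p q x.1 x.2 ∧ Gd A p q C x.1 x.2 u))).card := by
        rw [← Finset.mul_sum, CORE_dc]
      _ ≤ R * ∑ x : V × V, ((if x.1 = x.2 then (Ls A C x.1 ∩ Ls A C x.2).card ^ s else 0) +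
          (if x.2 ≠ x.1 ∧ p x.2 = p x.1 then (Ls A C x.1 ∩ Ls A C x.2).card ^ s else 0) +
          (if x.2 ≠ x.1 ∧ q x.2 = q x.1 then (Ls A C x.1 ∩ Ls A C x.2).card ^ s else 0) +
          E * (Δ * (Ls A C x.1 ∩ Ls A C x.2).card ^ (s - 1))) :=
        Nat.mul_le_mul_left R (Finset.sum_le_sum fun x _ => hright x)
      _ ≤ _ := by
        refine Nat.mul_le_mul_left R ?_
        rw [Finset.sum_add_distrib, Finset.sum_add_distrib, Finset.sum_add_distrib,
          Fintype.sum_prod_type, Fintype.sum_prod_type, Fintype.sum_prod_type,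
          Fintype.sum_prod_type]
        have e1 : ∑ v : V, ∑ v' : V, (if v = v' then (Ls A C v ∩ Ls A C v').card ^ s else 0) ≤
            Fintype.card V * Δ ^ (2 * s) := by
          have e2 : ∀ v : V, ∑ v' : V, (if v = v' then (Ls A C v ∩ Ls A C v').card ^ s else 0) ≤
              Δ ^ (2 * s) := by
            intro v
            rw [Finset.sum_ite_eq Finset.univ v fun v' => (Ls A C v ∩ Ls A C v').card ^ s,
              if_pos (Finset.mem_univ v), Finset.inter_self, pow_mul]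
            exact Nat.pow_le_pow_left (hL2 v) s
          calc _ ≤ ∑ _v : V, Δ ^ (2 * s) := Finset.sum_le_sum fun v _ => e2 v
            _ = _ := by rw [Finset.sum_const, Finset.card_univ, smul_eq_mul]
        have e3 : ∀ p' : V → X, ∑ v : V, ∑ v' : V, (if v' ≠ v ∧ p' v' = p' v then
            (Ls A C v ∩ Ls A C v').card ^ s else 0) = S1 A p' C s := by
          intro p'
          unfold S1
          refine Finset.sum_congr rfl fun v _ => ?_
          rw [Finset.sum_filter]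
        have e4 : ∑ v : V, ∑ v' : V, E * (Δ * (Ls A C v ∩ Ls A C v').card ^ (s - 1)) =
            E * (Δ * ∑ v, ∑ v', (Ls A C v ∩ Ls A C v').card ^ (s - 1)) := by
          simp only [Finset.mul_sum]
        dsimp only
        rw [e3 p, e3 q, e4]
        omega
  -- arithmetic
  set NN := Fintype.card V * Δ ^ (2 * s) with hNN
  set Y := Δ * ∑ v, ∑ v', (Ls A C v ∩ Ls A C v').card ^ (s - 1) with hY
  set L := (2 * R * E + 1) ^ (s - 1) with hL
  have h1 : R * (S1 A p C s) ≤ R * (B1 * NN) := Nat.mul_le_mul_left R hS1p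
  have h2 : R * (S1 A q C s) ≤ R * (B1 * NN) := Nat.mul_le_mul_left R hS1q
  have h3 : XX A C s ≤ R * NN + R * S1 A p C s + R * S1 A q C s + R * E * Y := by
    calc _ ≤ _ := hsum
      _ = _ := by ring
  have h4 : 2 * (R * E * Y) ≤ XX A C s + L * NN := by
    calc 2 * (R * E * Y) ≤ (2 * R * E + 1) * Y := by nlinarith
      _ ≤ _ := hSBv
  have h5 : (2 * R * (1 + 2 * B1) + L) * NN = 2 * (R * NN) + 4 * (R * (B1 * NN)) + L * NN := by
    ring
  rw [h5]
  omega

end

end Pool.Agent.KS
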